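import Pool.Agent.NUMFC.Const
import Pool.Agent.NUP1.Exact

/-!
# The prefactor of the exact formula at equal rows

* `F_one`: the value of the pair function at equal points;
* `norm_Apre`: `‖Apre σ 0‖ * ‖Apre σ 0‖ = pre m`;
* `norm_c`: `‖-2 sin (2 l) / σ‖ / (2 π) = act`.
-/

set_option autoImplicit false

noncomputable section

open Complex

namespace NUMFC

open NUP1 NUP1.Mu
open NUP1.Grand (P)

lemma l_eq : (NUP1.l : ℂ) = (Real.pi : ℂ) / 8 := by unfold NUP1.l; push_cast; rfl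

lemma et_eq : et = (√2 / 2 : ℝ) * (1 + I) := by
  unfold et
  have h1 : 2 * I * (NUP1.l : ℂ) = ((Real.pi / 4 : ℝ) : ℂ) * I := by
    rw [l_eq]; push_cast; ring
  rw [h1, Complex.exp_mul_I, ← Complex.ofReal_cos, ← Complex.ofReal_sin, Real.cos_pi_div_four,
    Real.sin_pi_div_four]
  ring

lemma sq2c : ((√2 : ℝ) : ℂ) ^ 2 = 2 := by
  rw [← Complex.ofReal_pow, sq2]; norm_num

lemma et_sq : et ^ 2 = I := by
  rw [et_eq, mul_pow]
  have h1 : (1 + I) ^ 2 = 2 * I := by
    have := Complex.I_sq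
    ring_nf
    rw [this]; ring
  have h2 : (((√2 / 2 : ℝ)) : ℂ) ^ 2 = 1 / 2 := by
    push_cast
    rw [div_pow, sq2c]; norm_num
  rw [h1, h2]; ring

lemma et_four : et ^ 4 = -1 := by
  have : et ^ 4 = (et ^ 2) ^ 2 := by ring
  rw [this, et_sq, Complex.I_sq]

lemma et_sub : et - et ^ 3 = ((√2 : ℝ) : ℂ) := by
  have h : et ^ 3 = et ^ 2 * et := by ring
  rw [h, et_sq, et_eq]
  push_cast
  have := Complex.I_sq
  linear_combination (-(√2 / 2 : ℂ)) * this

/-- the pair function at equal points -/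
theorem F_one : NUGas.F et .pos .pos (E 0) (E 0) = ((4 + 2 * √2 : ℝ) : ℂ) := by
  have hE : E 0 = 1 := by unfold E; simp
  rw [hE]
  unfold NUGas.F NUGas.lin
  have h4 := et_four
  have h2 := et_sq
  have hs := et_sub
  have h5 : et ^ 5 = -et := by linear_combination et * h4
  have h6 : et ^ 6 = -et ^ 2 := by linear_combination et ^ 2 * h4
  simp only [mul_one]
  rw [h5, h6]
  have a : (et ^ 2 - 1) * (et ^ 3 - 1) * (-et - 1) * (-et ^ 2 - 1) =
      (1 - et ^ 4) * (1 + (et - et ^ 3) - et ^ 4) := by ring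
  rw [a, h4, hs]
  push_cast
  ring

theorem P_const_sq {m : ℕ} (x : ℂ) : P (fun _ _ : Fin m => x) * P (fun _ _ : Fin m => x) =
    x ^ (m * (m - 1)) := by
  have h1 : P (fun _ _ : Fin m => x) = ∏ a : Fin m, ∏ b : Fin m, if b < a then x else 1 := by
    unfold P
    rw [Finset.prod_comm]
  have h2 : P (fun _ _ : Fin m => x) * P (fun _ _ : Fin m => x) =
      ∏ a : Fin m, ∏ b : Fin m, if a = b then 1 else x := by
    conv_lhs => rw [h1]
    rw [← h1]
    conv_lhs => lhs; rw [h1]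
    unfold P
    rw [← Finset.prod_mul_distrib]
    refine Finset.prod_congr rfl fun a _ => ?_
    rw [← Finset.prod_mul_distrib]
    refine Finset.prod_congr rfl fun b _ => ?_
    rcases lt_trichotomy a b with h | h | h
    · simp [h, h.ne, h.not_gt]
    · simp [h]
    · simp [h, h.ne', h.not_gt]
  rw [h2]
  have h3 : ∀ a : Fin m, (∏ b : Fin m, if a = b then (1 : ℂ) else x) = x ^ (m - 1) := by
    intro a
    rw [Finset.prod_ite, Finset.prod_const_one, one_mul, Finset.prod_const]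
    congr 1
    have : Finset.univ.filter (fun b : Fin m => ¬ a = b) = Finset.univ.erase a := by
      ext b
      simp [eq_comm]
    rw [this, Finset.card_erase_of_mem (Finset.mem_univ _)]
    simp
  rw [Finset.prod_congr rfl fun a _ => h3 a, Finset.prod_const, Finset.card_univ, Fintype.card_fin,
    ← pow_mul, mul_comm]

lemma norm_sigma {σ : ℂ} (hσ : σ ^ 2 = 4 * sin NUP1.l ^ 2) : ‖σ‖ ^ 2 = 2 - √2 := by
  have h1 : ‖σ‖ ^ 2 = ‖σ ^ 2‖ := by rw [norm_pow]
  have h2 : sin (NUP1.l : ℂ) = ((Real.sin NUP1.l : ℝ) : ℂ) := by push_cast; rfl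
  have h3 : Real.sin NUP1.l ^ 2 = (1 - √2 / 2) / 2 := by
    have : Real.cos (2 * NUP1.l) = √2 / 2 := by
      have : 2 * NUP1.l = Real.pi / 4 := by unfold NUP1.l; ring
      rw [this, Real.cos_pi_div_four]
    have h4 := Real.cos_two_mul NUP1.l
    have h5 := Real.sin_sq_add_cos_sq NUP1.l
    linarith
  rw [h1, hσ, h2]
  have h4 : (4 * (((Real.sin NUP1.l : ℝ)) : ℂ) ^ 2) = (((4 * Real.sin NUP1.l ^ 2 : ℝ)) : ℂ) := by
    push_cast; ring
  rw [h4, Complex.norm_real, Real.norm_eq_abs, abs_of_nonneg (by positivity), h3]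
  ring

lemma norm_sigma' {σ : ℂ} (hσ : σ ^ 2 = 4 * sin NUP1.l ^ 2) : ‖σ‖ = √(2 - √2) := by
  rw [← norm_sigma hσ, Real.sqrt_sq (norm_nonneg _)]

/-- **the prefactor of the exact formula at equal rows** -/
theorem norm_Apre {σ : ℂ} (hσ : σ ^ 2 = 4 * sin NUP1.l ^ 2) (m : ℕ) :
    ‖Apre σ (fun _ : Fin m => (0 : ℂ)) * Apre σ (fun _ : Fin m => (0 : ℂ))‖ = pre m := by
  have h1 : Apre σ (fun _ : Fin m => (0 : ℂ)) * Apre σ (fun _ : Fin m => (0 : ℂ)) =
      (σ ^ 2) ^ m * ((4 + 2 * √2 : ℝ) : ℂ) ^ (m * (m - 1)) := by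
    unfold Apre
    simp only [F_one]
    rw [← P_const_sq]
    have hE : E 0 = 1 := by unfold E; simp
    rw [hE]
    simp only [mul_one, Finset.prod_const, Finset.card_univ, Fintype.card_fin]
    ring
  have h0 := sq2_pos
  rw [h1, norm_mul, norm_pow, norm_pow, norm_pow, norm_sigma hσ, Complex.norm_real,
    Real.norm_eq_abs, abs_of_pos (by positivity), pre_nat, mul_comm]

/-- modulus of the activity of one quantum -/
theorem norm_c {σ : ℂ} (hσ : σ ^ 2 = 4 * sin NUP1.l ^ 2) :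
    ‖-2 * sin (2 * NUP1.l) / σ‖ / (2 * Real.pi) = act := by
  have h1 : sin (2 * (NUP1.l : ℂ)) = ((√2 / 2 : ℝ) : ℂ) := by
    have : 2 * (NUP1.l : ℂ) = ((Real.pi / 4 : ℝ) : ℂ) := by
      rw [l_eq]; push_cast; ring
    rw [this, ← Complex.ofReal_sin, Real.sin_pi_div_four]
  have h0 := sq2_pos
  rw [h1, norm_div, norm_mul, norm_neg, Complex.norm_real, Real.norm_eq_abs,
    abs_of_pos (by positivity), norm_sigma' hσ]
  unfold act
  have h2 : ‖(2 : ℂ)‖ = 2 := by simp
  rw [h2]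
  have h3 : 0 < √(2 - √2) := Real.sqrt_pos.2 (by linarith [sq2_lt])
  have := Real.pi_pos
  field_simp

end NUMFC

end
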