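import Pool.Agent.NUP.MF.Bulk2
import Pool.Agent.NUC62.RGP
import Pool.Agent.NUE.Inst

/-!
# Mean field constants of the gas on the line

* `act = |c| / (2 π)`, `c = -2 sin (2 l) / σ`, `σ ^ 2 = 4 sin l ^ 2`: modulus of the activity of one
  quantum on the line `u = l + i t` (measure `d t`);
* `act_one`: `act · √(g 0) · (2 π / √cω) = 1`: activity × diagonal constant of `br2_tau` ×
  constant per particle of `circ_bound`: no constant per quantum is left;
* `MF s = s ^ 2 ∫ P v = <ρ, V * ρ>`, `ρ = s P` (both species together), `MFs s p n` the mean field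
  exponent of the gas with `p + n` quanta without activities;
* `pre s`: modulus of the prefactor, `bulkR s` the bulk factor for a real number of rows,
  `pre_MF : pre s * exp (MF s) = bulkR s`.
-/

set_option autoImplicit false

open MeasureTheory

noncomputable section

namespace NUMFC

open NUMF NUC62

/-- modulus of the activity of one quantum -/
def act : ℝ := √2 / (2 * Real.pi * √(2 - √2))

/-- constant per particle of the one component bound on the circle -/
def cpc : ℝ := 2 * Real.pi / √cω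

lemma sq2 : √2 ^ 2 = 2 := Real.sq_sqrt (by norm_num)

lemma sq2_pos : 0 < √2 := Real.sqrt_pos.2 (by norm_num)

lemma sq2_lt : √2 < 2 := by nlinarith [sq2, sq2_pos]

lemma act_pos : 0 < act := by
  unfold act
  have h1 := sq2_pos
  have h2 : 0 < √(2 - √2) := Real.sqrt_pos.2 (by linarith [sq2_lt])
  have := Real.pi_pos
  positivity

lemma cω_pos : 0 < cω := by
  unfold cω
  have h1 := r_lt_one
  have h2 := r_pos
  have : 0 < 1 - r := by linarith
  positivity

lemma cpc_pos : 0 < cpc := by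
  unfold cpc
  have := Real.sqrt_pos.2 cω_pos
  have := Real.pi_pos
  positivity

lemma one_sub_r : 2 * (1 - r) = 2 - √2 := by unfold r; ring

/-- `√(g 0) = 2 / (1 + r)` -/
lemma sqrt_g : √(g 0) = 2 / (1 + r) := by
  have h2 := r_pos
  rw [NUE.g_zero]
  have : (4 : ℝ) / (1 + r) ^ 2 = (2 / (1 + r)) ^ 2 := by rw [div_pow]; norm_num
  rw [this, Real.sqrt_sq (by positivity)]

lemma exp_half_log : Real.exp (Real.log (g 0) / 2) = √(g 0) := by
  rw [Real.sqrt_eq_rpow, Real.rpow_def_of_pos (g_pos 0)]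
  congr 1; ring

/-- `√cω = 2 / ((1 + r) √(1 - r))` -/
lemma sqrt_cω : √cω = 2 / ((1 + r) * √(1 - r)) := by
  have h1 := r_lt_one
  have h2 := r_pos
  have h3 : 0 < 1 - r := by linarith
  have h4 := Real.sqrt_pos.2 h3
  have h5 : cω = (2 / ((1 + r) * √(1 - r))) ^ 2 := by
    unfold cω
    rw [div_pow, mul_pow, Real.sq_sqrt h3.le]
    norm_num
    ring
  rw [h5, Real.sqrt_sq (by positivity)]

lemma cpc_eq : cpc = Real.pi * (1 + r) * √(1 - r) := by
  have h1 := r_lt_one
  have h2 := r_pos
  have h3 : 0 < 1 - r := by linarith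
  have h4 := Real.sqrt_pos.2 h3
  unfold cpc
  rw [sqrt_cω]
  field_simp

/-- **no constant per quantum**: activity × `√(g 0)` × constant of the circle bound -/
theorem act_one : act * √(g 0) * cpc = 1 := by
  have h1 := r_lt_one
  have h2 := r_pos
  have h3 : 0 < 1 - r := by linarith
  have h4 := Real.sqrt_pos.2 h3
  have h5 : √(2 - √2) = √2 * √(1 - r) := by
    rw [← Real.sqrt_mul (by norm_num), one_sub_r]
  have hp := Real.pi_pos
  have h6 := sq2_pos
  rw [sqrt_g, cpc_eq]
  unfold act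
  rw [h5]
  field_simp

theorem act_one' : act * Real.exp (Real.log (g 0) / 2) * cpc = 1 := by
  rw [exp_half_log]; exact act_one

/-! ### mean field exponent -/

/-- `s ^ 2 ∫ P v` -/
def MF (s : ℝ) : ℝ := s ^ 2 * ∫ t, P t * v t

/-- mean field exponent of the gas with `p + n` quanta (no activities) -/
def MFs (s : ℝ) (p n : ℕ) : ℝ := MF s - ((p : ℝ) + n) * Real.log act

/-- the interaction energy of the sea of one species is `MF s` (twice `1/2`: two species) -/
theorem energy (s : ℝ) : ∫ t, (s * P t) * ∫ u, (s * P u) * V (t - u) = MF s := by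
  unfold MF
  rw [← integral_const_mul]
  congr 1
  funext t
  have h1 : ∀ u, s * P u * V (t - u) = s * (P u * V (t - u)) := fun u => by ring
  simp_rw [h1]
  rw [integral_const_mul, (conv_V t).2]
  ring

theorem sea_v (s t : ℝ) : ∫ u, (s * P u) * V (t - u) = s * v t := by
  have h1 : ∀ u, s * P u * V (t - u) = s * (P u * V (t - u)) := fun u => by ring
  simp_rw [h1]
  rw [integral_const_mul, (conv_V t).2]

theorem MF_zero : MF 0 = 0 := by unfold MF; simp

theorem MF_one : MF 1 = 4 * Real.log (2 / 3 * (2 + √2)) - Real.log (4 + 2 * √2) := by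
  have h0 := sq2_pos
  have h1 := congrArg Real.log exp_int_vP
  rw [Real.log_mul (by positivity) (Real.exp_ne_zero _), Real.log_exp, Real.log_pow] at h1
  unfold MF
  push_cast at h1
  linarith

theorem MF_eq (s : ℝ) : MF s = s ^ 2 * MF 1 := by unfold MF; ring

/-- `∫ P v > 0` -/
theorem MF_one_pos : 0 < MF 1 := by
  have h := MF_one
  have h0 := sq2_pos
  have h2 := sq2
  have h3 : Real.log (4 + 2 * √2) < 4 * Real.log (2 / 3 * (2 + √2)) := by
    have e : 4 * Real.log (2 / 3 * (2 + √2)) = Real.log ((2 / 3 * (2 + √2)) ^ 4) := by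
      rw [Real.log_pow]; norm_num
    rw [e]
    apply Real.log_lt_log (by positivity)
    have e1 : (2 / 3 * (2 + √2)) ^ 2 = 4 / 9 * (6 + 4 * √2) := by
      rw [mul_pow]; nlinarith [h2]
    have e2 : (2 / 3 * (2 + √2)) ^ 4 = (4 / 9) ^ 2 * (68 + 48 * √2) := by
      have : (2 / 3 * (2 + √2)) ^ 4 = ((2 / 3 * (2 + √2)) ^ 2) ^ 2 := by ring
      rw [this, e1, mul_pow]; nlinarith [h2]
    rw [e2]
    nlinarith
  linarith

/-- the diagonal constants and the circle constants make up `MFs` -/
theorem exp_MFs (s : ℝ) (p n : ℕ) :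
    Real.exp (MFs s p n) = (√(g 0) * cpc) ^ (p + n) * Real.exp (MF s) := by
  have h1 := act_pos
  have h2 := act_one
  have h3 : √(g 0) * cpc = act⁻¹ := by
    field_simp
    linarith
  unfold MFs
  rw [sub_eq_add_neg, Real.exp_add, mul_comm, h3]
  congr 1
  rw [← mul_neg, ← Real.log_inv, ← Nat.cast_add, Real.exp_nat_mul, Real.exp_log (by positivity)]

theorem exp_MFs' (s : ℝ) (p n : ℕ) :
    Real.exp (Real.log (g 0) * (((p : ℝ) + n) / 2)) * (cpc ^ p * cpc ^ n) * Real.exp (MF s) =
      Real.exp (MFs s p n) := by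
  rw [exp_MFs]
  congr 1
  have h1 : Real.log (g 0) * (((p : ℝ) + n) / 2) = ((p + n : ℕ) : ℝ) * (Real.log (g 0) / 2) := by
    push_cast; ring
  rw [h1, Real.exp_nat_mul, exp_half_log, ← pow_add, ← mul_pow]

/-- activities times the gas -/
theorem act_MFs (s : ℝ) (p n : ℕ) : act ^ (p + n) * Real.exp (MFs s p n) = Real.exp (MF s) := by
  rw [exp_MFs, ← mul_assoc, ← mul_pow]
  have := act_one
  rw [mul_assoc] at this
  rw [this, one_pow, one_mul]

/-! ### prefactor and bulk factor -/

/-- modulus of the prefactor for a real number of rows -/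
def pre (s : ℝ) : ℝ := (4 + 2 * √2) ^ (s * (s - 1)) * (2 - √2) ^ s

/-- bulk factor for a real number of rows -/
def bulkR (s : ℝ) : ℝ := (2 / 3 * (2 + √2)) ^ (2 * s * (2 * s - 1)) * (2 / 3 : ℝ) ^ (2 * s)

lemma pre_pos (s : ℝ) : 0 < pre s := by
  unfold pre
  have := sq2_pos
  have := sq2_lt
  have : 0 < 2 - √2 := by linarith
  positivity

lemma bulkR_pos (s : ℝ) : 0 < bulkR s := by
  unfold bulkR
  have := sq2_pos
  positivity

theorem log_pre (s : ℝ) : Real.log (pre s) =
    s * (s - 1) * Real.log (4 + 2 * √2) + s * Real.log (2 - √2) := by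
  have h0 := sq2_pos
  have h1 : 0 < 2 - √2 := by linarith [sq2_lt]
  have h2 : 0 < 4 + 2 * √2 := by positivity
  unfold pre
  rw [Real.log_mul (by positivity) (by positivity), Real.log_rpow h2, Real.log_rpow h1]

theorem log_bulkR (s : ℝ) : Real.log (bulkR s) =
    2 * s * (2 * s - 1) * Real.log (2 / 3 * (2 + √2)) + 2 * s * Real.log (2 / 3) := by
  have h0 := sq2_pos
  have h2 : 0 < 2 / 3 * (2 + √2) := by positivity
  unfold bulkR
  rw [Real.log_mul (by positivity) (by positivity), Real.log_rpow h2, Real.log_rpow (by norm_num)]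

/-- **prefactor × mean field = bulk factor**, real number of rows -/
theorem pre_MF (s : ℝ) : pre s * Real.exp (MF s) = bulkR s := by
  have h0 := sq2_pos
  have h1 : 0 < 2 - √2 := by linarith [sq2_lt]
  have hK : (0 : ℝ) < 2 / 3 * (2 + √2) := by positivity
  have hD : (0 : ℝ) < 4 + 2 * √2 := by positivity
  have a3 := congrArg Real.log bulk_lin
  rw [one_sub_r, Real.log_div h1.ne' hD.ne', Real.log_pow, Real.log_div (by norm_num) hK.ne'] at a3
  push_cast at a3
  apply Real.log_injOn_pos (Set.mem_Ioi.2 (mul_pos (pre_pos s) (Real.exp_pos _)))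
    (Set.mem_Ioi.2 (bulkR_pos s))
  rw [Real.log_mul (pre_pos s).ne' (Real.exp_ne_zero _), Real.log_exp, log_pre, log_bulkR, MF_eq, MF_one]
  linear_combination s * a3

theorem pre_nat (m : ℕ) : pre m = (4 + 2 * √2) ^ (m * (m - 1)) * (2 - √2) ^ m := by
  unfold pre
  rw [Real.rpow_natCast]
  congr 1
  rcases m with _ | m
  · simp
  · have : ((m + 1 : ℕ) : ℝ) * (((m + 1 : ℕ) : ℝ) - 1) = (((m + 1) * (m + 1 - 1) : ℕ) : ℝ) := by
      push_cast; simp
    rw [this, Real.rpow_natCast]

theorem bulkR_nat (m : ℕ) : bulkR m =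
    (2 / 3 * (2 + √2)) ^ (2 * m * (2 * m - 1)) * (2 / 3) ^ (2 * m) := by
  unfold bulkR
  rcases m with _ | m
  · simp
  · have e1 : 2 * ((m + 1 : ℕ) : ℝ) * (2 * ((m + 1 : ℕ) : ℝ) - 1) =
        ((2 * (m + 1) * (2 * (m + 1) - 1) : ℕ) : ℝ) := by
      have : 2 * (m + 1) - 1 = 2 * m + 1 := by omega
      rw [this]
      push_cast
      ring
    have e2 : 2 * ((m + 1 : ℕ) : ℝ) = ((2 * (m + 1) : ℕ) : ℝ) := by push_cast; ring
    rw [e1, e2, Real.rpow_natCast, Real.rpow_natCast]

/-- prefactor × mean field = `bulk m` of `NUF.FINA` -/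
theorem pre_MF_nat (m : ℕ) : (4 + 2 * √2) ^ (m * (m - 1)) * (2 - √2) ^ m * Real.exp (MF m) =
    (2 / 3 * (2 + √2)) ^ (2 * m * (2 * m - 1)) * (2 / 3) ^ (2 * m) := by
  rw [← pre_nat, ← bulkR_nat]
  exact pre_MF m

/-- change of the bulk factor with the number of rows -/
theorem bulkR_ratio (s t : ℝ) : bulkR t = bulkR s * Real.exp ((t - s) *
    ((4 * (s + t) - 2) * Real.log (2 / 3 * (2 + √2)) + 2 * Real.log (2 / 3))) := by
  apply Real.log_injOn_pos (Set.mem_Ioi.2 (bulkR_pos t))
    (Set.mem_Ioi.2 (mul_pos (bulkR_pos s) (Real.exp_pos _)))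
  rw [Real.log_mul (bulkR_pos s).ne' (Real.exp_ne_zero _), Real.log_exp, log_bulkR, log_bulkR]
  ring

end NUMFC

end
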