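import Pool.Agent.NUMFC.Mass

/-!
# Numerical bookkeeping of the circle bound

For a window of half length `T`: `Gw T = 9 + 2 log (1 + T)`, circle length `Lw T = 2 T + 2 Gw T`;
`bk`: the one loop term and the error term of `circ_bound` cost at most `(7 / 6 + ε) T + C` per
species, uniformly in `T ≥ (3 / 8) log m` and in the number of quanta `n ≤ k m`.
-/

set_option autoImplicit false

open scoped Real

noncomputable section

namespace NUMFC

open NUC62

/-- range of the interaction for the window of half length `T` -/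
def Gw (T : ℝ) : ℝ := 9 + 2 * Real.log (1 + T)

/-- length of the circle for the window of half length `T` -/
def Lw (T : ℝ) : ℝ := 2 * T + 2 * Gw T

lemma log_nonneg' {T : ℝ} (hT : 0 ≤ T) : 0 ≤ Real.log (1 + T) := Real.log_nonneg (by linarith)

lemma Gw_ge {T : ℝ} (hT : 0 ≤ T) : 9 ≤ Gw T := by
  unfold Gw; linarith [log_nonneg' hT]

lemma Lw_ge {T : ℝ} (hT : 0 ≤ T) : 2 * T + 18 ≤ Lw T := by
  unfold Lw; linarith [Gw_ge hT]

lemma Lw_pos {T : ℝ} (hT : 0 ≤ T) : 0 < Lw T := by linarith [Lw_ge hT]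

lemma two_add_le {T : ℝ} (hT : 0 ≤ T) : 2 * T + Gw T ≤ Lw T := by
  unfold Lw; linarith [Gw_ge hT]

/-- `log (1 + T) ≤ ε T + log (1 + 1 / ε)` -/
lemma log_le_eps {ε T : ℝ} (hε : 0 < ε) (hT : 0 ≤ T) :
    Real.log (1 + T) ≤ ε * T + Real.log (1 + 1 / ε) := by
  have h1 : Real.log (1 + T) ≤ Real.log ((1 + ε * T) * (1 + 1 / ε)) := by
    apply Real.log_le_log (by linarith)
    have : (1 + ε * T) * (1 + 1 / ε) = 1 + T + (1 / ε + ε * T) := by
      field_simp; ring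
    rw [this]
    have : 0 ≤ 1 / ε + ε * T := by positivity
    linarith
  have h2 : 0 < 1 + ε * T := by positivity
  have h3 : 0 < 1 + 1 / ε := by positivity
  rw [Real.log_mul h2.ne' h3.ne'] at h1
  have h4 := Real.log_le_sub_one_of_pos h2
  linarith

lemma Lw_le {T : ℝ} (hT : 0 ≤ T) : Lw T ≤ 18 * (1 + T) := by
  have h1 := Real.log_le_sub_one_of_pos (show 0 < 1 + T by linarith)
  unfold Lw Gw
  linarith

/-- the coefficient of the error term -/
lemma eG_Lw {T : ℝ} (hT : 0 ≤ T) : eG (Gw T) * Lw T ≤ 7 / (1 + T) := by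
  have h1 : 0 < 1 + T := by linarith
  have h2 : Real.exp (-(Gw T)) = Real.exp (-9) / (1 + T) ^ 2 := by
    unfold Gw
    rw [show -(9 + 2 * Real.log (1 + T)) = -9 - (2 : ℕ) * Real.log (1 + T) by push_cast; ring,
      Real.exp_sub, Real.exp_nat_mul, Real.exp_log h1]
  unfold eG
  rw [h2]
  have h3 := exp_neg_nine
  have h4 := Lw_le hT
  have h5 := (Real.exp_pos (-9)).le
  calc 2304 * (Real.exp (-9) / (1 + T) ^ 2) * Lw T
      ≤ 2304 * ((1 / 6000) / (1 + T) ^ 2) * (18 * (1 + T)) := by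
        have := (Lw_pos hT).le
        gcongr
    _ = 2304 * 18 / 6000 / (1 + T) := by field_simp
    _ ≤ 7 / (1 + T) := by
        apply div_le_div_of_nonneg_right _ h1.le
        norm_num

/-- the error term is bounded -/
theorem err_le (k : ℝ) : ∃ C : ℝ, 0 ≤ C ∧ ∀ (m T : ℝ) (n : ℕ), 1 ≤ m → 0 ≤ T →
    3 / 8 * Real.log m ≤ T → (n : ℝ) ≤ k * m → err (Gw T) (Lw T) n ≤ C := by
  have hk1 : 0 < |k| + 1 := by positivity
  refine ⟨7 * (1 + (2 * Real.log (|k| + 2) + 16 / 3)), ?_, fun m T n hm hT0 hT hn => ?_⟩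
  · have : 0 ≤ Real.log (|k| + 2) := Real.log_nonneg (by linarith [abs_nonneg k])
    positivity
  have h1 : 0 < 1 + T := by linarith
  have hm0 : 0 < m := by linarith
  have h2 : Real.log ((n : ℝ) ^ 2 + 1) ≤ 2 * (Real.log (|k| + 2) + Real.log m) := by
    rw [← Real.log_mul (by positivity) hm0.ne']
    have h3 : (n : ℝ) ^ 2 + 1 ≤ ((|k| + 2) * m) ^ 2 := by
      have h4 : (n : ℝ) ≤ |k| * m := hn.trans (by gcongr; exact le_abs_self k)
      have h5 : (0 : ℝ) ≤ n := Nat.cast_nonneg n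
      have h6 : 0 ≤ |k| := abs_nonneg k
      nlinarith [mul_nonneg h6 hm0.le, mul_nonneg h5 (mul_nonneg h6 hm0.le)]
    calc Real.log ((n : ℝ) ^ 2 + 1) ≤ Real.log (((|k| + 2) * m) ^ 2) :=
          Real.log_le_log (by positivity) h3
      _ = 2 * Real.log ((|k| + 2) * m) := by rw [Real.log_pow]; norm_num
  have h0 : 0 ≤ Real.log (|k| + 2) := Real.log_nonneg (by linarith [abs_nonneg k])
  have h7 : Real.log m ≤ 8 / 3 * T := by linarith
  unfold err
  have h8 : 0 ≤ 1 + Real.log ((n : ℝ) ^ 2 + 1) := by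
    have : 0 ≤ Real.log ((n : ℝ) ^ 2 + 1) := Real.log_nonneg (by nlinarith [sq_nonneg (n : ℝ)])
    linarith
  calc eG (Gw T) * Lw T * (1 + Real.log ((n : ℝ) ^ 2 + 1))
      ≤ 7 / (1 + T) * (1 + Real.log ((n : ℝ) ^ 2 + 1)) := by
        gcongr
        exact eG_Lw hT0
    _ ≤ 7 / (1 + T) * ((1 + (2 * Real.log (|k| + 2) + 16 / 3)) * (1 + T)) := by
        gcongr
        nlinarith [mul_nonneg h0 hT0]
    _ = _ := by field_simp

/-- **one species**: one loop and error terms of `circ_bound` -/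
theorem bk {ε : ℝ} (hε : 0 < ε) (k : ℝ) : ∃ C : ℝ, 0 ≤ C ∧ ∀ (m T : ℝ) (n : ℕ), 1 ≤ m → 0 ≤ T →
    3 / 8 * Real.log m ≤ T → (n : ℝ) ≤ k * m →
    7 / 12 * Lw T + err (Gw T) (Lw T) n ≤ (7 / 6 + ε) * T + C := by
  obtain ⟨C, hC, h⟩ := err_le k
  have h0 : 0 ≤ Real.log (1 + 1 / (3 / 7 * ε)) := by
    apply Real.log_nonneg
    have : 0 ≤ 1 / (3 / 7 * ε) := by positivity
    linarith
  refine ⟨C + 21 / 2 + 7 / 3 * Real.log (1 + 1 / (3 / 7 * ε)), by positivity,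
    fun m T n hm hT0 hT hn => ?_⟩
  have h1 := h m T n hm hT0 hT hn
  have h2 := log_le_eps (ε := 3 / 7 * ε) (by positivity) hT0
  unfold Lw Gw at *
  linarith

/-- **two species**: for a half length `T = (3 / 8) (1 + δ) log m + x` the total cost is
`m ^ (7 / 8 (1 + δ) + ε) · e ^ ((7 / 3 + ε) x)` -/
theorem bk2 {ε : ℝ} (hε : 0 < ε) (k : ℝ) : ∃ C : ℝ, 0 ≤ C ∧ ∀ (m δ x : ℝ) (p n : ℕ), 1 ≤ m →
    0 ≤ δ → 0 ≤ x → (p : ℝ) ≤ k * m → (n : ℝ) ≤ k * m →
    (7 / 12 * Lw (3 / 8 * (1 + δ) * Real.log m + x) +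
      err (Gw (3 / 8 * (1 + δ) * Real.log m + x)) (Lw (3 / 8 * (1 + δ) * Real.log m + x)) p) +
    (7 / 12 * Lw (3 / 8 * (1 + δ) * Real.log m + x) +
      err (Gw (3 / 8 * (1 + δ) * Real.log m + x)) (Lw (3 / 8 * (1 + δ) * Real.log m + x)) n) ≤
    (7 / 8 + ε) * (1 + δ) * Real.log m + (7 / 3 + ε) * x + C := by
  obtain ⟨C, hC, h⟩ := bk (ε := ε / 2) (by positivity) k
  refine ⟨2 * C, by positivity, fun m δ x p n hm hδ hx hp hn => ?_⟩
  have hl : 0 ≤ Real.log m := Real.log_nonneg hm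
  have hT0 : 0 ≤ 3 / 8 * (1 + δ) * Real.log m + x := by positivity
  have hT : 3 / 8 * Real.log m ≤ 3 / 8 * (1 + δ) * Real.log m + x := by
    nlinarith [mul_nonneg hδ hl]
  have h1 := h m _ p hm hT0 hT hp
  have h2 := h m _ n hm hT0 hT hn
  have h3 : 0 ≤ ε * (1 + δ) * Real.log m := by positivity
  linarith

end NUMFC

end
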