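import Pool.Agent.NUC62.Bound

/-!
# The mass term and the sum over the number of quanta

* `uG_ge`: the zero mode of the circle bound is at least `2 / Λ`;
* `sum_gauss`: `∑ exp (-θ (n - a) ^ 2) ≤ 3 (1 + 1 / √θ)` over any finite set of natural numbers;
* `sum_mass`: the sum over the number of quanta with a crude bound for all numbers and a sharp bound
  near the number of rows;
* `mass_far`: the mass term beats any power at polylogarithmic distance.
-/

set_option autoImplicit false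

open Finset
open scoped Real ENNReal

noncomputable section

namespace NUMFC

open NUC62

theorem exp_neg_nine : Real.exp (-9) ≤ 1 / 6000 := by
  have h1 : (2.7 : ℝ) ≤ Real.exp 1 := by
    have := Real.exp_one_gt_d9
    linarith
  have h2 : (2.7 : ℝ) ^ 9 ≤ Real.exp 9 := by
    have : Real.exp 9 = Real.exp 1 ^ 9 := by rw [← Real.exp_nat_mul]; norm_num
    rw [this]
    gcongr
  rw [Real.exp_neg, one_div]
  apply inv_anti₀ (by norm_num)
  refine le_trans ?_ h2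
  norm_num

/-- the zero mode of `circ_bound` -/
theorem uG_ge {G Λ : ℝ} (hG : 9 ≤ G) (hΛ : 0 < Λ) : 2 / Λ ≤ uG G Λ := by
  unfold uG
  apply div_le_div_of_nonneg_right _ hΛ.le
  have h1 := RGz_le (G := G) (by linarith)
  have h2 : Real.exp (-G) ≤ Real.exp (-9) := Real.exp_le_exp.2 (by linarith)
  have h3 := exp_neg_nine
  have h4 := Real.pi_gt_three
  nlinarith

/-- sums of powers along an injection -/
theorem sum_pow_inj {q : ℝ} (h0 : 0 ≤ q) (h1 : q < 1) (S : Finset ℕ) (f : ℕ → ℕ)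
    (hf : ∀ x ∈ S, ∀ y ∈ S, f x = f y → x = y) : ∑ n ∈ S, q ^ f n ≤ (1 - q)⁻¹ := by
  rw [← Finset.sum_image (s := S) (g := f) (f := fun k => q ^ k) (fun x hx y hy h => hf x hx y hy h),
    ← tsum_geometric_of_lt_one h0 h1]
  exact (summable_geometric_of_lt_one h0 h1).sum_le_tsum _ fun i _ => pow_nonneg h0 i

theorem sum_abs {q : ℝ} (h0 : 0 < q) (h1 : q < 1) (S : Finset ℕ) (a : ℝ) :
    ∑ n ∈ S, q ^ |(n : ℝ) - a| ≤ 2 * (1 - q)⁻¹ := by
  have hle : ∀ {x y : ℝ}, y ≤ x → q ^ x ≤ q ^ y := fun h => Real.rpow_le_rpow_of_exponent_ge h0 h1.le h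
  rw [← Finset.sum_filter_add_sum_filter_not S (fun n : ℕ => a ≤ (n : ℝ))]
  have e1 : ∑ n ∈ S.filter (fun n : ℕ => a ≤ (n : ℝ)), q ^ |(n : ℝ) - a| ≤ (1 - q)⁻¹ := by
    refine le_trans (Finset.sum_le_sum (g := fun n : ℕ => q ^ (n - ⌈a⌉₊)) fun n hn => ?_)
      (sum_pow_inj h0.le h1 _ (fun n => n - ⌈a⌉₊) fun x hx y hy h => ?_)
    · rw [Finset.mem_filter] at hn
      rw [← Real.rpow_natCast]
      apply hle
      have h2 : ⌈a⌉₊ ≤ n := Nat.ceil_le.2 hn.2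
      rw [Nat.cast_sub h2, abs_of_nonneg (by linarith [hn.2])]
      linarith [Nat.le_ceil a]
    · rw [Finset.mem_filter] at hx hy
      have h2 : ⌈a⌉₊ ≤ x := Nat.ceil_le.2 hx.2
      have h3 : ⌈a⌉₊ ≤ y := Nat.ceil_le.2 hy.2
      omega
  have e2 : ∑ n ∈ S.filter (fun n : ℕ => ¬ a ≤ (n : ℝ)), q ^ |(n : ℝ) - a| ≤ (1 - q)⁻¹ := by
    have hlt : ∀ n : ℕ, ¬ a ≤ (n : ℝ) → n + 1 ≤ ⌈a⌉₊ := by
      intro n hn
      exact Nat.succ_le_of_lt (Nat.lt_ceil.2 (not_le.1 hn))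
    refine le_trans (Finset.sum_le_sum (g := fun n : ℕ => q ^ (⌈a⌉₊ - 1 - n)) fun n hn => ?_)
      (sum_pow_inj h0.le h1 _ (fun n => ⌈a⌉₊ - 1 - n) fun x hx y hy h => ?_)
    · rw [Finset.mem_filter] at hn
      rw [← Real.rpow_natCast]
      apply hle
      have h2 := hlt n hn.2
      have h3 : ((⌈a⌉₊ - 1 - n : ℕ) : ℝ) = (⌈a⌉₊ : ℝ) - 1 - n := by
        rw [Nat.cast_sub (by omega), Nat.cast_sub (by omega)]; simp
      have h4 : a > 0 := by
        by_contra h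
        push Not at h
        exact hn.2 (h.trans (Nat.cast_nonneg n))
      have h5 := Nat.ceil_lt_add_one h4.le
      rw [h3, abs_of_neg (by linarith [not_le.1 hn.2])]
      linarith
    · rw [Finset.mem_filter] at hx hy
      have h2 := hlt x hx.2
      have h3 := hlt y hy.2
      omega
  linarith

/-- **Gaussian sums over the number of quanta** -/
theorem sum_gauss {θ : ℝ} (hθ : 0 < θ) (S : Finset ℕ) (a : ℝ) :
    ∑ n ∈ S, Real.exp (-(θ * ((n : ℝ) - a) ^ 2)) ≤ 3 * (1 + 1 / √θ) := by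
  have hs := Real.sqrt_pos.2 hθ
  have hs2 := Real.sq_sqrt hθ.le
  set x := √θ with hx
  have hq1 : Real.exp (-x) < 1 := by rw [Real.exp_lt_one_iff]; linarith
  have h1 : ∀ n : ℕ, Real.exp (-(θ * ((n : ℝ) - a) ^ 2)) ≤
      Real.exp (1 / 4) * Real.exp (-x) ^ |(n : ℝ) - a| := by
    intro n
    rw [← Real.exp_mul, ← Real.exp_add]
    apply Real.exp_le_exp.2
    have h3 : |(n : ℝ) - a| ^ 2 = ((n : ℝ) - a) ^ 2 := sq_abs _
    have h4 : 0 ≤ (x * |(n : ℝ) - a| - 1 / 2) ^ 2 := sq_nonneg _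
    have h5 : (x * |(n : ℝ) - a| - 1 / 2) ^ 2 = θ * ((n : ℝ) - a) ^ 2 - x * |(n : ℝ) - a| + 1 / 4 := by
      rw [← hs2, ← h3]; ring
    linarith
  have h2 : (1 - Real.exp (-x))⁻¹ ≤ 1 + 1 / x := by
    have h3 : Real.exp (-x) ≤ 1 / (1 + x) := by
      rw [Real.exp_neg, ← one_div]
      exact one_div_le_one_div_of_le (by linarith) (by linarith [Real.add_one_le_exp x])
    have h4 : x / (1 + x) ≤ 1 - Real.exp (-x) := by
      have : x / (1 + x) = 1 - 1 / (1 + x) := by field_simp; ring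
      linarith
    calc (1 - Real.exp (-x))⁻¹ ≤ (x / (1 + x))⁻¹ := inv_anti₀ (by positivity) h4
      _ = 1 + 1 / x := by field_simp; ring
  have he : Real.exp (1 / 4) ≤ 3 / 2 := by
    have h3 : Real.exp (1 / 4) ^ 4 ≤ (3 / 2 : ℝ) ^ 4 := by
      rw [← Real.exp_nat_mul]
      have := Real.exp_one_lt_d9
      norm_num
      linarith
    exact le_of_pow_le_pow_left₀ (by norm_num) (by norm_num) h3
  calc ∑ n ∈ S, Real.exp (-(θ * ((n : ℝ) - a) ^ 2))
      ≤ ∑ n ∈ S, Real.exp (1 / 4) * Real.exp (-x) ^ |(n : ℝ) - a| := Finset.sum_le_sum fun n _ => h1 n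
    _ = Real.exp (1 / 4) * ∑ n ∈ S, Real.exp (-x) ^ |(n : ℝ) - a| := by rw [Finset.mul_sum]
    _ ≤ (3 / 2) * (2 * (1 - Real.exp (-x))⁻¹) := by
        have := sum_abs (Real.exp_pos (-x)) hq1 S a
        have h5 : 0 ≤ ∑ n ∈ S, Real.exp (-x) ^ |(n : ℝ) - a| :=
          Finset.sum_nonneg fun n _ => Real.rpow_nonneg (Real.exp_pos _).le _
        gcongr
    _ = 3 * (1 - Real.exp (-x))⁻¹ := by ring
    _ ≤ _ := by gcongr

/-- the same for extended reals -/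
theorem sum_gauss' {θ : ℝ} (hθ : 0 < θ) (S : Finset ℕ) (a : ℝ) :
    ∑ n ∈ S, ENNReal.ofReal (Real.exp (-(θ * ((n : ℝ) - a) ^ 2))) ≤
      ENNReal.ofReal (3 * (1 + 1 / √θ)) := by
  rw [← ENNReal.ofReal_sum_of_nonneg fun n _ => (Real.exp_pos _).le]
  exact ENNReal.ofReal_le_ofReal (sum_gauss hθ S a)

/-- **sum over the number of quanta**: crude bound `B₁` for all numbers, sharp bound `B₀` for
`|n - s| ≤ D`, mass term `exp (-θ (n - a) ^ 2)` in both -/
theorem sum_mass {θ D s a : ℝ} (hθ : 0 < θ) (ha : |a - s| ≤ D / 2) (hD : 0 ≤ D) (S : Finset ℕ)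
    {Z : ℕ → ℝ≥0∞} {M B₀ B₁ : ℝ≥0∞}
    (hall : ∀ n ∈ S, Z n ≤ M * ENNReal.ofReal (Real.exp (-(θ * ((n : ℝ) - a) ^ 2))) * B₁)
    (hnear : ∀ n ∈ S, |(n : ℝ) - s| ≤ D →
      Z n ≤ M * ENNReal.ofReal (Real.exp (-(θ * ((n : ℝ) - a) ^ 2))) * B₀)
    (hB : B₁ * ENNReal.ofReal (Real.exp (-(θ / 8 * D ^ 2))) ≤ B₀) :
    ∑ n ∈ S, Z n ≤ M * B₀ * ENNReal.ofReal (3 * (1 + 1 / √(θ / 2))) := by
  have key : ∀ n ∈ S, Z n ≤ M * B₀ * ENNReal.ofReal (Real.exp (-(θ / 2 * ((n : ℝ) - a) ^ 2))) := by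
    intro n hn
    by_cases h : |(n : ℝ) - s| ≤ D
    · refine (hnear n hn h).trans ?_
      rw [mul_right_comm]
      gcongr
      nlinarith [sq_nonneg ((n : ℝ) - a)]
    · push Not at h
      refine (hall n hn).trans ?_
      have h1 : D / 2 ≤ |(n : ℝ) - a| := by
        have h2 : |(n : ℝ) - s| ≤ |(n : ℝ) - a| + |a - s| := abs_sub_le _ _ _
        linarith
      have h2 : D ^ 2 / 4 ≤ ((n : ℝ) - a) ^ 2 := by
        rw [← sq_abs ((n : ℝ) - a)]
        have : D ^ 2 / 4 = (D / 2) ^ 2 := by ring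
        rw [this]
        gcongr
      have h3 : Real.exp (-(θ * ((n : ℝ) - a) ^ 2)) ≤
          Real.exp (-(θ / 2 * ((n : ℝ) - a) ^ 2)) * Real.exp (-(θ / 8 * D ^ 2)) := by
        rw [← Real.exp_add]
        apply Real.exp_le_exp.2
        nlinarith
      calc M * ENNReal.ofReal (Real.exp (-(θ * ((n : ℝ) - a) ^ 2))) * B₁
          ≤ M * (ENNReal.ofReal (Real.exp (-(θ / 2 * ((n : ℝ) - a) ^ 2))) *
            ENNReal.ofReal (Real.exp (-(θ / 8 * D ^ 2)))) * B₁ := by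
            rw [← ENNReal.ofReal_mul (Real.exp_pos _).le]
            gcongr
        _ = M * ENNReal.ofReal (Real.exp (-(θ / 2 * ((n : ℝ) - a) ^ 2))) *
            (B₁ * ENNReal.ofReal (Real.exp (-(θ / 8 * D ^ 2)))) := by ring
        _ ≤ M * ENNReal.ofReal (Real.exp (-(θ / 2 * ((n : ℝ) - a) ^ 2))) * B₀ := by gcongr
        _ = _ := by ring
  calc ∑ n ∈ S, Z n ≤ ∑ n ∈ S, M * B₀ * ENNReal.ofReal (Real.exp (-(θ / 2 * ((n : ℝ) - a) ^ 2))) :=
        Finset.sum_le_sum key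
    _ = M * B₀ * ∑ n ∈ S, ENNReal.ofReal (Real.exp (-(θ / 2 * ((n : ℝ) - a) ^ 2))) := by
        rw [Finset.mul_sum]
    _ ≤ _ := by
        gcongr
        exact sum_gauss' (by positivity) S a

/-- at distance `L ^ 3`, `L = 1 + log m`, the mass term with `θ = c / L` beats every power of `m` -/
theorem mass_far {c b : ℝ} (hc : 0 < c) (hb : 0 ≤ b) : ∃ C : ℝ, 1 ≤ C ∧ ∀ m : ℝ, 1 ≤ m →
    m ^ b * Real.exp (-(c / (1 + Real.log m) / 8 * ((1 + Real.log m) ^ 3) ^ 2)) ≤ C := by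
  refine ⟨max 1 (Real.exp (b * (8 * b / c))), le_max_left _ _, fun m hm => ?_⟩
  set L := 1 + Real.log m with hL
  have hl0 : 0 ≤ Real.log m := Real.log_nonneg hm
  have hL1 : 1 ≤ L := by linarith
  have e : c / L / 8 * (L ^ 3) ^ 2 = c * L ^ 5 / 8 := by
    field_simp
  rw [e, Real.rpow_def_of_pos (by linarith), ← Real.exp_add]
  have h5 : L ≤ L ^ 5 := le_self_pow₀ hL1 (by norm_num)
  have h2 : L ^ 2 ≤ L ^ 5 := pow_le_pow_right₀ hL1 (by norm_num)
  by_cases h : 8 * b / c ≤ L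
  · refine le_trans ?_ (le_max_left _ _)
    rw [← Real.exp_zero]
    apply Real.exp_le_exp.2
    have h6 : 8 * b ≤ L * c := by rwa [div_le_iff₀ hc] at h
    have h7 : Real.log m ≤ L := by linarith
    nlinarith [mul_nonneg hb hl0, mul_nonneg hc.le (by linarith : (0 : ℝ) ≤ L)]
  · push Not at h
    refine le_trans ?_ (le_max_right _ _)
    apply Real.exp_le_exp.2
    have h6 : Real.log m ≤ 8 * b / c := by linarith
    have h7 : 0 ≤ c * L ^ 5 / 8 := by positivity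
    nlinarith [mul_le_mul_of_nonneg_left h6 hb]

end NUMFC

end
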